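import Pool.Agent.MP_09973c_nt.H58.SpecT

/-!
Structure of constrained points and the final assembly for algebraic parameters.
-/

set_option autoImplicit false

namespace Pool.Agent.MP_09973c_nt.H58

open Polynomial Filter

theorem g4_cyc {A : Type} [CommRing A] {p q : ℕ} {c : A} {x : ℕ → A}
    (hx : ∀ k, x k ^ p + c = x (k + 1) ^ q) {i j : ℕ} (hij : i < j) (h : x i = x j) :
    x i ∈ Cyc p q c := by
  refine ⟨fun k => x (j - k % (j - i)), j - i, by omega, fun k => ?_, fun k => by simp,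
    by simp [h]⟩
  have h1 := Nat.mod_lt k (by omega : j - i > 0)
  have h2 : x (j - (k + 1) % (j - i)) = x (j - k % (j - i) - 1) := by
    rw [← Nat.mod_add_mod]
    by_cases e : k % (j - i) + 1 < j - i
    · rw [Nat.mod_eq_of_lt e, Nat.sub_sub]
    · rw [show k % (j - i) + 1 = j - i by omega, Nat.mod_self, Nat.sub_zero, ← h]
      congr 1; omega
  show x _ ^ p + c = x _ ^ q
  rw [h2, hx]
  congr 2; omega

theorem g4_alg {p q : ℕ} (hpq : p < q) {c : Qb} {x : ℂ} (h : x ∈ Cyc p q (c : ℂ)) :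
    IsIntegral ℚ x := by
  obtain ⟨u, m, hm, hu, hper, rfl⟩ := h
  by_contra hk
  obtain ⟨V, hV, hxV⟩ := Subring.exists_le_valuationSubring_of_isIntegrallyClosedIn
    (x := u 0) (R := (integralClosure ℚ ℂ).toSubring) hk
  have h1 := H31.chain_val_le V.valuation hpq
    ⟨fun k => (hu k).symm, finite_range_of_per hm hper⟩ 0
  rw [max_eq_left ((V.valuation_le_one_iff _).2 (hV (mem_algebraicClosure_iff'.1 c.2)))] at h1
  exact hxV ((V.valuation_le_one_iff _).1 ((pow_le_one_iff_of_nonneg zero_le (by omega)).1 h1))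

theorem g4_reach {p q : ℕ} {c : Qb} {x : ℕ → Qb} (hx : ∀ k, x k ^ p + c = x (k + 1) ^ q) {n : ℕ}
    (h : x n ∈ Cyc p q c) :
    H31.ReachesCycleWithin p q (c : ℂ) n (((x 0 ^ q : Qb) : ℂ) : OnePoint ℂ) := by
  obtain ⟨u, m, hm, hu, hper, h0⟩ := h
  obtain ⟨m, rfl⟩ : ∃ m', m = m' + 1 := ⟨m - 1, by omega⟩
  have h1 : ∀ k, u ((m + 1) * k) = u 0 := fun k => by
    induction k with
    | zero => rfl
    | succ k ih => rw [mul_add_one, hper, ih]
  set w : ℕ → Qb := fun k => if k ≤ n then x k else u (m * (k - n)) with hw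
  have h2 : ∀ k, w (n + k) = u (m * k) := fun k => by
    rcases k with _ | k
    · simp [hw, h0]
    · simp [hw]
  have h3 : ∀ k, w k ^ p + c = w (k + 1) ^ q := fun k => by
    by_cases e : k + 1 ≤ n
    · simp only [hw, if_pos e, if_pos (by omega : k ≤ n), hx]
    · obtain ⟨k, rfl⟩ := Nat.exists_eq_add_of_le (by omega : n ≤ k)
      rw [add_assoc, h2, h2, ← hu, mul_add_one, add_assoc, hper]
  refine ⟨fun k => ((w k ^ q : Qb) : ℂ), by simp [hw], fun k => ⟨((w k : Qb) : ℂ), ?_, ?_⟩,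
    n, n + (m + 1), le_rfl, by omega, ?_⟩
  · simp
  · simp [← h3]
  · have := h2 0
    simp only [add_zero, mul_zero] at this
    simp only [h2, this, mul_comm m, h1]

theorem g4_reach_mono {p q : ℕ} {c : ℂ} {n m : ℕ} {y : OnePoint ℂ} (h : n ≤ m)
    (hy : H31.ReachesCycleWithin p q c n y) : H31.ReachesCycleWithin p q c m y := by
  obtain ⟨path, h0, he, i, j, hi, hj⟩ := hy
  exact ⟨path, h0, he, i, j, hi.trans h, hj⟩

theorem red : RedStmt := by
  classical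
  intro p q c y hp hpq hy
  obtain ⟨x, ⟨hx, hf⟩, rfl⟩ := H31.chain_of_constrained (by omega) hy
  have hx' : ∀ k, x k ^ p + c = x (k + 1) ^ q := fun k => by rw [hx k]; ring
  obtain ⟨i, j, hij, he⟩ := H31.exists_repeat hf
  have hc : IsIntegral ℚ (c : ℂ) := mem_algebraicClosure_iff'.1 c.2
  have h0 : ∀ k, IsIntegral ℚ (x k) → IsIntegral ℚ (x 0) := fun k => by
    induction k with
    | zero => exact id
    | succ k ih => exact fun h => ih (IsIntegral.of_pow hp (hx k ▸ (h.pow q).add hc.neg))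
  have h1 : ∀ k, IsIntegral ℚ (x k) := fun k => by
    induction k with
    | zero => exact h0 i (g4_alg hpq (g4_cyc hx' hij he))
    | succ k ih => exact IsIntegral.of_pow (n := q) (by omega) (hx' k ▸ (ih.pow p).add hc)
  set X : ℕ → Qb := fun k => ⟨x k, mem_algebraicClosure_iff'.2 (h1 k)⟩ with hX
  have hX' : ∀ k, X k ^ p + c = X (k + 1) ^ q := fun k => Subtype.ext (hx' k)
  have hex : ∃ i, X i ∈ Cyc p q c := ⟨i, g4_cyc hX' hij (Subtype.ext he)⟩
  have h2 := Nat.find_spec hex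
  have h3 := g4_reach hX' h2
  have h4 := fun m => Nat.find_min hex (m := m)
  generalize Nat.find hex = n at h2 h3 h4
  rcases n with _ | n
  · exact Or.inl ⟨X 0, h2, rfl, h3⟩
  obtain ⟨u, m, hm, hu, hper, hu0⟩ := h2
  obtain ⟨ξ, hξ, h5⟩ := exists_mul_of_pow_eq (x := u 1) (y := X n) hp
    (add_right_cancel ((hX' n).trans (hu0 ▸ (hu 0).symm)))
  have h6 : ∀ i, u (i + 1 + 1) ^ p + c = u (i + 1) ^ q := fun i => hu (i + 1)
  have h7 : ∀ i, u (i + m + 1) = u (i + 1) := fun i => by rw [add_right_comm, hper]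
  refine Or.inr ⟨⟨n, ξ, fun i => u (i + 1), fun j => X (n - j), hξ, ?_, h6, ⟨m, hm, h7⟩, h5,
    fun k hk => ?_, fun j _ => h4 _ (by omega)⟩, by simp [hX], h3⟩
  · rintro rfl
    exact h4 n (by omega) ⟨fun i => u (i + 1), m, hm, h6, h7, by rw [h5, one_mul]⟩
  · show X _ ^ p + c = X _ ^ q
    rw [hX']
    congr 2; omega

theorem g4_bound (a b : Qb) : ∃ (d : ℕ) (C : ℝ), 0 < d ∧ 1 ≤ C ∧ Sz a d C ∧ Sz b d C ∧
    ∀ (l : ℕ) (_ : Fact l.Prime) (ψ : Qb →+* PadicAlgCl l), ‖ψ a‖ ≤ C ∧ ‖ψ b‖ ≤ C := by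
  classical
  obtain ⟨d, hd, C, hC, hS⟩ := exists_Sz_finset {a, b}
  have ha := hS a (by simp)
  have hb := hS b (by simp)
  exact ⟨d, max C d, hd, hC.trans (le_max_left _ _), ha.mono dvd_rfl (le_max_left _ _),
    hb.mono dvd_rfl (le_max_left _ _), fun l _ ψ =>
      ⟨(padic_le_of_Sz ψ hd ha.1).trans (le_max_right _ _),
        (padic_le_of_Sz ψ hd hb.1).trans (le_max_right _ _)⟩⟩

theorem g4_esc {p q : ℕ} (hp : 0 < p) (hpq : p < q) {c : Qb} (D : Dat p q c) {F : Type}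
    [NormedField F] (ψ : Qb →+* F) {C : ℝ} (hc : ‖ψ c‖ ≤ C) {j : ℕ} (hj : j ≤ D.n)
    (h : Real.log (1 + C) + 1 ≤ lp (ψ (D.t j))) :
    Real.log (1 + C) + ((q : ℝ) / p) ^ (D.n - j) ≤ lp (ψ (D.t D.n)) := by
  have h1 := esc_low hp hpq hc ((D.ht.shift (i := j) (m := D.n - j) (by omega)).map ψ) _ le_rfl
  simp only [add_zero, Nat.add_sub_cancel' hj] at h1
  have h2 : 0 < ((q : ℝ) / p) ^ (D.n - j) := by
    have : 0 < q := by omega
    positivity
  nlinarith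

theorem g4_roots {r : ℕ} (hr : 0 < r) {Z : Set Qb} (hZ : Z.Finite) : {z : Qb | z ^ r ∈ Z}.Finite :=
  (hZ.biUnion (t := fun u => {z | z ∈ nthRoots r u}) fun _ _ => Multiset.finite_toSet _).subset
    fun _ hz => Set.mem_biUnion hz ((mem_nthRoots hr).2 rfl)

theorem g4_tree {p q : ℕ} (hp : 0 < p) (c : Qb) {Z : Set Qb} (hZ : Z.Finite) (n : ℕ) :
    {y | ∃ t, t 0 ∈ Z ∧ Bwd p q c n t ∧ t n = y}.Finite := by
  induction n with
  | zero => exact hZ.subset (by rintro _ ⟨t, h, -, rfl⟩; exact h)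
  | succ n ih =>
    refine (g4_roots hp (ih.image fun z => z ^ q - c)).subset ?_
    rintro _ ⟨t, h, ht, rfl⟩
    exact ⟨t n, ⟨t, h, fun k hk => ht k (by omega), rfl⟩, by
      show _ - c = _; rw [← ht n (by omega)]; ring⟩

theorem g4_lp {F : Type} [NormedField F] {x : F} (h : ‖x‖ ≤ 1) : lp x = 0 := by
  rw [lp, max_eq_left h, Real.log_one]

theorem a0 (hU : UStmt) (hE : ESCStmt) : A0Stmt := by
  intro p q b hp hpq hco hb
  obtain ⟨d, C, hd, hC, hS, -, hψ⟩ := g4_bound b b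
  obtain ⟨j₁, hj⟩ := hU p q b (Real.log (1 + C) + 1) hp hpq hco hb
  have hG := GK_index (p := p) (q := q) (Nat.mul_pos (by omega) (by omega)) b b
  obtain ⟨δ, hδ, hE⟩ := hE p q b _ hp hpq hco hb hG le_rfl
  choose m C₁ hE using fun j => hE (1 + C) d j 1 hd
  have hθ : ∀ j, 0 < ((q : ℝ) / p) ^ j := fun j => by
    have : 0 < p := by omega
    have : 0 < q := by omega
    positivity
  have hΛ := log_one_add_nonneg (zero_le_one.trans hC)
  have hp0 : 0 < p := by omega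
  refine ((northcott hG (C₁ 0) one_pos 1).union ((Set.finite_lt_nat j₁).biUnion fun j _ =>
    g4_tree (q := q) hp0 b ((finite_roots_one hp0).image2 (· * ·)
      (northcott hG (C₁ j) hd (1 + C))) j)).subset ?_
  rintro x ⟨⟨u, k, hk, hu, hper, rfl⟩ | ⟨D, rfl⟩, hx⟩
  · refine Or.inl ⟨not_lt.1 fun hlt => ?_, hx⟩
    have : NeZero (p : Qb) := ⟨Nat.cast_ne_zero.2 hp0.ne'⟩
    obtain ⟨ξ, hξ⟩ := HasEnoughRootsOfUnity.exists_primitiveRoot Qb p
    obtain ⟨g, -, -, hg⟩ := hE 0 ξ u (fun _ => ξ * u 0) hξ.pow_eq_one (hξ.ne_one hp)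
      (fun i _ => hu i) (fun i _ => cyc_Sz hp0 hpq hS ⟨fun l => u (i + l), k, hk,
        fun l => hu (i + l), fun l => by simp only [← add_assoc, hper], rfl⟩) rfl (fun _ h => absurd h (by omega)) hlt
    have h1 := hg 0
    rw [g4_lp (by simpa using ((Sz.root hp0 hξ.pow_eq_one).mul hx).2 (g 0))] at h1
    nlinarith [hθ 0]
  have hn : D.n < j₁ := by
    by_contra hn
    rcases hj D (not_lt.1 hn) with ⟨g, hg⟩ | ⟨l, hl, ψ, hg⟩
    · have h1 := g4_esc hp0 hpq D (g : Qb →+* Qb) (hS.2 g) (not_lt.1 hn) hg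
      rw [g4_lp (x := (g : Qb →+* Qb) _) (hx.2 g)] at h1
      linarith [hθ (D.n - j₁)]
    · have h1 := g4_esc hp0 hpq D ψ (hψ l hl ψ).1 (not_lt.1 hn) hg
      rw [g4_lp (padic_le_one ψ (by simpa using hx.1))] at h1
      linarith [hθ (D.n - j₁)]
  refine Or.inr (Set.mem_biUnion hn ⟨D.t, ⟨D.ξ, D.hξ, D.u 0,
    ⟨not_lt.1 fun hlt => ?_, D.u_Sz hp0 hpq hS 0⟩, D.ht0.symm⟩, D.ht, rfl⟩)
  obtain ⟨g, -, -, hg⟩ := hE D.n D.ξ D.u D.t D.hξ D.hξ1 (D.bwd_u _)
    (fun i _ => D.u_Sz hp0 hpq hS i) D.ht0 D.ht hlt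
  have h1 := hg 0
  rw [g4_lp (hx.2 (g 0))] at h1
  nlinarith [hθ D.n]

theorem g4_zero (hR : RedStmt) (hA : A0Stmt) {p q : ℕ} {b : Qb} (hp : 2 ≤ p) (hpq : p < q)
    (hco : p.Coprime q) (hb : b ≠ 0) :
    {y | H31.Constrained p q ((0 : Qb) : ℂ) y ∧ H31.Constrained p q (b : ℂ) y}.Finite := by
  refine H31.finite_of_finite_coe
    (((hA p q b hp hpq hco hb).image fun x => ((x ^ q : Qb) : ℂ)).subset ?_)
  rintro y ⟨h1, h2⟩
  have hp0 : 0 < p := by omega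
  obtain ⟨x, hx, e⟩ : ∃ x : Qb, Sz x 1 1 ∧ ((x ^ q : Qb) : ℂ) = y := by
    rcases hR p q 0 y hp0 hpq h1 with ⟨x, hx, e, -⟩ | ⟨D, e, -⟩
    · exact ⟨x, by simpa using cyc_Sz hp0 hpq (Sz.zero (d := 1)) hx, e⟩
    · exact ⟨_, by simpa using D.t_Sz hp0 hpq (Sz.zero (d := 1)) le_rfl, e⟩
  obtain ⟨x', hx', e'⟩ : ∃ x' : Qb, (x' ∈ Cyc p q b ∨ ∃ D : Dat p q b, D.t D.n = x') ∧
      ((x' ^ q : Qb) : ℂ) = y := by
    rcases hR p q b y hp0 hpq h2 with ⟨x, hx, e, -⟩ | ⟨D, e, -⟩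
    exacts [⟨x, Or.inl hx, e⟩, ⟨_, Or.inr ⟨D, rfl⟩, e⟩]
  obtain ⟨ω, hω, h3⟩ := exists_mul_of_pow_eq (r := q) (x := x) (y := x') (by omega)
    (Subtype.ext (e'.trans e.symm))
  exact ⟨x', ⟨hx', by simpa [h3] using (Sz.root (by omega) hω).mul hx⟩, e'⟩

theorem g4_cmp (hU : UStmt) {p q : ℕ} {a : Qb} (b : Qb) (hp : 2 ≤ p) (hpq : p < q)
    (hco : p.Coprime q) (ha : a ≠ 0) : ∃ e : ℕ, ∀ D : Dat p q a,
      (∀ x ∈ Cyc p q b, x ^ q = D.t D.n ^ q → D.n < e) ∧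
      ∀ D' : Dat p q b, D'.t D'.n ^ q = D.t D.n ^ q → D.n ≤ D'.n + e := by
  obtain ⟨d, C, hd, hC, hSa, hSb, hψ⟩ := g4_bound a b
  obtain ⟨j₁, hj⟩ := hU p q a (Real.log (1 + C) + 1) hp hpq hco ha
  have hp0 : 0 < p := by omega
  have hθ : 1 < (q : ℝ) / p := (one_lt_div (by positivity)).2 (by exact_mod_cast hpq)
  have hΛ := log_one_add_nonneg (zero_le_one.trans hC)
  obtain ⟨e, he⟩ := pow_unbounded_of_one_lt (2 * Real.log (1 + C)) hθ
  refine ⟨e + j₁, fun D => ?_⟩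
  by_cases hn : D.n < j₁
  · exact ⟨fun _ _ _ => by omega, fun _ _ => by omega⟩
  have key : ∀ (F : Type) [NormedField F] (ψ : Qb →+* F), ‖ψ a‖ ≤ C → ‖ψ b‖ ≤ C →
      Real.log (1 + C) + 1 ≤ lp (ψ (D.t j₁)) →
      (∀ x ∈ Cyc p q b, x ^ q = D.t D.n ^ q → D.n < e + j₁) ∧
      ∀ D' : Dat p q b, D'.t D'.n ^ q = D.t D.n ^ q → D.n ≤ D'.n + (e + j₁) := by
    intro F _ ψ h1 h2 h3
    have h4 := g4_esc hp0 hpq D ψ h1 (not_lt.1 hn) h3
    have h5 : ∀ x, x ^ q = D.t D.n ^ q → lp (ψ x) = lp (ψ (D.t D.n)) := fun x hx => by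
      have h6 := congrArg (fun z => lp (ψ z)) hx
      simp only [map_pow, lp_pow] at h6
      exact mul_left_cancel₀ (by exact_mod_cast (by omega : q ≠ 0)) h6
    refine ⟨fun x hx e => ?_, fun D' e' => ?_⟩
    · have h6 := cyc_le hp0 hpq h2 (Cyc.map ψ hx)
      have h7 := pow_pos (zero_lt_one.trans hθ) (D.n - j₁)
      rw [h5 x e] at h6
      linarith
    · have h6 := D'.lp_t_le hp0 hpq ψ h2 le_rfl
      have h7 := mul_lt_mul_of_pos_left he (pow_pos (zero_lt_one.trans hθ) D'.n)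
      rw [h5 _ e'] at h6
      rw [← pow_add] at h7
      have := (pow_lt_pow_iff_right₀ hθ).1
        (by linarith : ((q : ℝ) / p) ^ (D.n - j₁) < ((q : ℝ) / p) ^ (D'.n + e))
      omega
  rcases hj D (not_lt.1 hn) with ⟨g, hg⟩ | ⟨l, hl, ψ, hg⟩
  exacts [key Qb (g : Qb →+* Qb) (hSa.2 g) (hSb.2 g) hg, key _ ψ (hψ l hl ψ).1 (hψ l hl ψ).2 hg]

theorem main (hR : RedStmt) (hA : A0Stmt) (hU : UStmt) (hV : CVStmt) (hF : CFStmt) :
    MainStmt := by
  intro p q a b hp hpq hco hab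
  by_cases ha : a = 0
  · subst ha; exact g4_zero hR hA hp hpq hco hab.symm
  by_cases hb : b = 0
  · subst hb; simpa only [and_comm] using g4_zero hR hA hp hpq hco ha
  obtain ⟨e, he⟩ := g4_cmp hU b hp hpq hco ha
  obtain ⟨e', he'⟩ := g4_cmp hU a hp hpq hco hb
  refine H31.finite_of_finite_coe ?_
  by_contra hinf
  have key : ∀ ν, ∃ (D : Dat p q a) (D' : Dat p q b), D'.t D'.n ^ q = D.t D.n ^ q ∧ ν ≤ D.n := by
    intro ν
    obtain ⟨y, ⟨h1, h2⟩, h3⟩ := (Set.Infinite.sdiff hinf ((H31.reaches_finite hp hpq hco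
      (a := a) (b := b) (fun h => hab (Subtype.ext h)) (ν + e + e' + 1)).preimage
      OnePoint.coe_injective.injOn)).nonempty
    simp only [Set.mem_preimage, Set.mem_ofPred_eq, not_and_or] at h3
    rcases hR p q a y (by omega) hpq h1 with ⟨x, hx, e1, r1⟩ | ⟨D, e1, r1⟩ <;>
      rcases hR p q b y (by omega) hpq h2 with ⟨x', hx', e2, r2⟩ | ⟨D', e2, r2⟩ <;>
      have e3 := Subtype.ext (e2.trans e1.symm)
    · exact (h3.elim (· (g4_reach_mono (by omega) r1)) (· (g4_reach_mono (by omega) r2))).elim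
    · have := (he' D').1 x hx e3.symm
      exact (h3.elim (· (g4_reach_mono (by omega) r1)) (· (g4_reach_mono (by omega) r2))).elim
    · have := (he D).1 x' hx' e3
      exact (h3.elim (· (g4_reach_mono (by omega) r1)) (· (g4_reach_mono (by omega) r2))).elim
    · have := (he' D').2 D e3.symm
      refine ⟨D, D', e3, not_lt.1 fun h => ?_⟩
      exact h3.elim (· (g4_reach_mono (by omega) r1)) (· (g4_reach_mono (by omega) r2))
  choose D D' h1 h2 using key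
  obtain ⟨o, -, ho⟩ := ((hyperfilter ℕ).map fun ν => (D ν).n + e' - (D' ν).n).eq_pure_of_finite_mem
    (Set.finite_le_nat (e + e')) (Ultrafilter.mem_map.2 (univ_mem' fun ν => by
      have := (he (D ν)).2 _ (h1 ν)
      show (D ν).n + e' - (D' ν).n ≤ e + e'
      omega))
  have h3 : {o} ∈ (hyperfilter ℕ).map fun ν => (D ν).n + e' - (D' ν).n := by rw [ho]; simp
  have hS : Seq (hyperfilter ℕ) D D' o e' := ⟨by
      filter_upwards [Ultrafilter.mem_map.1 h3] with ν hν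
      have h4 := (he' (D' ν)).2 _ (h1 ν).symm
      have h5 : (D ν).n + e' - (D' ν).n = o := hν
      exact ⟨h1 ν, by omega⟩,
    fun J => ((eventually_ge_atTop J).filter_mono Nat.hyperfilter_le_atTop).mono
      fun ν h => h.trans (h2 ν)⟩
  by_cases c1 : ∀ x, ∀ᶠ ν in (hyperfilter ℕ : Filter ℕ), (D ν).u 0 ≠ x
  · exact hV p q a b hp hpq hco ha hb hab _ D D' o e' hS c1
  by_cases c2 : ∀ x, ∀ᶠ ν in (hyperfilter ℕ : Filter ℕ), (D' ν).u 0 ≠ x
  · exact hV p q b a hp hpq hco hb ha hab.symm _ D' D e' o hS.symm c2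
  obtain ⟨x, hx⟩ := not_forall.1 c1
  obtain ⟨x', hx'⟩ := not_forall.1 c2
  exact hF p q a b hp hpq hco ha hb hab _ D D' o e' x x' hS
    ((not_not.1 (Ultrafilter.eventually_not.not.1 hx)).and
      (not_not.1 (Ultrafilter.eventually_not.not.1 hx')))

end Pool.Agent.MP_09973c_nt.H58
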